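import Pool.Agent.K4H30.PM.Final

/-!
# MP_30ddb3_co, Q1: the graded Frobenius characteristic of `M_{m_{(2,1^{d-2})}}`

The formula of Q1 is true.  For all `d ≥ 3`, `n ≥ d` and `ℓ ≥ 1` there is an isomorphism of
representations of `𝔖_n × GL_ℓ(ℂ)`

`⨁_{j = 0}^{d} ⨁_{i = 0}^{⌊d/2⌋} (Sym^j(ℂ^ℓ) ⊗ S^{(n-i,i)})^{⊕ mult d i j} ≅ M_f`,
`f = m_{(2,1^{d-2})}(x_{11},…,x_{1n})`,

given as an injective linear map `φ` into `ℂ[X]` with image `M_f` which is compatible with the
actions of `GL_ℓ(ℂ)` and `𝔖_n`.  Here `mult d i j` is the coefficient of `s_j(q) s_{n-i,i}(w)` in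
the displayed formula.  Since `Sym^j(ℂ^ℓ) = W_{(j)}` has the character `s_j(q_1,…,q_ℓ)`, and
`S^{(n-i,i)}` (`i ≤ n/2`) is the irreducible module with Frobenius characteristic `s_{n-i,i}(w)`,
this is the formula of Q1.

The definitions (the polarization module `polMod`, the Specht modules `Specht n i` of the two-row
shapes `(n-i,i)`, the symmetric powers `Sym ℓ j`, the group actions, the multiplicities `mult d i j`
and the right-hand side `Rhs ℓ n d`) are in `Pool.Agent.K4H30.PM.Defs`.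

Outline of the proof.  Let `V = ⨁ V_j` be the span of all partial derivatives of
`m_{(2,1^{d-2})}(x_1,…,x_n)` and of `e_{d-1}(x_1,…,x_n)`.
* For `g ∈ V_{j+1}` there is `h ∈ V_j` with `∂_m² g = ∂_m h` for all `m`, and all the third
  derivatives `∂_m³` kill `V`.  So `M_f` is the closure of `V` (in the first row) under the operators
  `E^{(1)}_{i,k}` alone (`Mod.lean`; `e_{d-1}` is obtained from `E^{(2)}_{1,1} f`).
* The restitution `x_{ij} ↦ y_i x_j` is injective on `M_f`, since the `2 × 2` minors of `(∂_{ij})`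
  kill `M_f`, and its image is `⨁_j Sym^j ⊗ V_j` (`Rho.lean`, `Main.lean`).
* `V_j` is computed with the inclusion and disjointness maps between functions on the subsets of
  `{1,…,n}` (`Disj.lean`, `Young.lean`, `Vj.lean`, `Gamma.lean`): with `k = min(j, d-j)` it is
  `ℂ^{k-subsets} ⊕ ℂ^{(k-1)-subsets}`, the second summand only for `j ≥ 2`.
-/

set_option autoImplicit false

namespace Pool.Agent.Results.MP_30ddb3_co.FrobeniusCharacteristic

open Pool.Agent.K4H30.PM

/-- Q1: for all `d ≥ 3`, `n ≥ d`, `ℓ ≥ 1`, the polarization module of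
`m_{(2,1^{d-2})}(x_{11},…,x_{1n})` is isomorphic, as a representation of `GL_ℓ(ℂ) × 𝔖_n`, to
`Rhs ℓ n d`, the direct sum over `0 ≤ j ≤ d`, `0 ≤ i ≤ ⌊d/2⌋` of `mult d i j` copies of
`Sym^j(ℂ^ℓ) ⊗ S^{(n-i,i)}`: there is an injective linear map from `Rhs ℓ n d` to `ℂ[X]` with image
`M_f` which is compatible with the actions of `GL_ℓ(ℂ)` and `𝔖_n`. -/
theorem result (d n ℓ : ℕ) [NeZero ℓ] (hd : 3 ≤ d) (hn : d ≤ n) :
    ∃ φ : Rhs ℓ n d →ₗ[ℂ] P ℓ n, Function.Injective φ ∧
      LinearMap.range φ = polMod (row ℓ (m21 n d)) ∧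
      ∀ (M : Matrix.GeneralLinearGroup (Fin ℓ) ℂ) (σ : Equiv.Perm (Fin n)) (t : Rhs ℓ n d),
        φ (rhsAct M σ t) = glAct M (sAct σ (φ t)) :=
  main' d n ℓ hd hn

end Pool.Agent.Results.MP_30ddb3_co.FrobeniusCharacteristic
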